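import Pool.Agent.Helper23.LW.Spec

/-! LW (helper23), part `CRV`: the curve through a point. -/

set_option autoImplicit false

namespace Pool.Agent.Helper6.LW.CRV

open MvPolynomial Pool.Agent.Helper23.LW

theorem main (hZER : St_ZER) (hGRD : St_GRD) : St_CRV := by
  intro M s w H D G b hH hG hb hsum P hP hPG
  choose E hE1 hE2 hE3 hE4 using fun j => hGRD M w (H j) (D j) (hH j) P
  obtain ⟨F, hF1, hF2, hF3, hF4⟩ := hGRD M w G b hG P
  obtain ⟨z, hz, hzE⟩ := hZER (Σ i : Fin M, Fin (w i)) ((Σ j : Fin s, Fin (D j)) ⊕ Fin (b - 1))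
    (fun a => (a.2 : ℕ) + 1) (fun a => Nat.succ_pos _)
    (Sum.elim (fun jk => E jk.1 ((jk.2 : ℕ) + 1)) fun k => F ((k : ℕ) + 2))
    (Sum.elim (fun jk => (jk.2 : ℕ) + 1) fun k => (k : ℕ) + 2)
    (by rintro (a | a) <;> simp)
    (by
      rintro (a | a)
      · exact hE1 a.1 _
      · exact hF1 _)
    (by
      simp only [Fintype.card_sum, Fintype.card_sigma, Fintype.card_fin]
      omega)
  refine ⟨fun i => Polynomial.C (P i) +
    ∑ l : Fin (w i), Polynomial.C (z ⟨i, l⟩) * Polynomial.X ^ ((l : ℕ) + 1),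
    eval z (F 1) / eval P G, ?_, ?_, ?_, ?_⟩
  · intro i
    simp [Polynomial.eval_finsetSum]
  · obtain ⟨⟨i, l⟩, hil⟩ := Function.ne_iff.1 hz
    refine ⟨i, fun h => hil ?_⟩
    have h1 := congrArg (fun p => Polynomial.coeff p ((l : ℕ) + 1)) h
    simp only [Polynomial.coeff_add, Polynomial.coeff_C_succ, Polynomial.finsetSum_coeff,
      Polynomial.coeff_C_mul_X_pow, zero_add] at h1
    rw [Finset.sum_eq_single l] at h1
    · simpa using h1
    · intro l' _ hl'
      rw [if_neg]
      intro h2
      exact hl' (Fin.ext (by omega))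
    · intro h2
      exact absurd (Finset.mem_univ _) h2
  · intro j
    ext k
    rw [hE4 j z k, Polynomial.coeff_zero]
    rcases Nat.eq_zero_or_pos k with rfl | hk
    · rw [hE3 j, hP j]
      simp
    · by_cases hkD : D j < k
      · rw [hE2 j k hkD]
        simp
      · have h1 := hzE (Sum.inl ⟨j, ⟨k - 1, by omega⟩⟩)
        simp only [Sum.elim_inl] at h1
        rwa [Nat.sub_add_cancel hk] at h1
  · ext k
    rw [hF4 z k, Polynomial.coeff_C_mul, Polynomial.coeff_add, Polynomial.coeff_one,
      Polynomial.coeff_C_mul, Polynomial.coeff_X]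
    rcases Nat.lt_trichotomy k 1 with hk | rfl | hk
    · have : k = 0 := by omega
      subst this
      rw [hF3]
      simp
    · simp only [one_ne_zero, if_false, zero_add, if_true, mul_one]
      field_simp
    · have hz0 : eval z (F k) = 0 := by
        by_cases hkb : b < k
        · rw [hF2 k hkb]
          simp
        · have h1 := hzE (Sum.inr ⟨k - 2, by omega⟩)
          simp only [Sum.elim_inr] at h1
          rwa [Nat.sub_add_cancel (by omega : 2 ≤ k)] at h1
      rw [hz0, if_neg (by omega), if_neg (by omega)]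
      simp

end Pool.Agent.Helper6.LW.CRV
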