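import Pool.Agent.Helper23.LW.Spec

/-! LW (helper23), part `MOR`: the morphism from the multiplicative group. -/

set_option autoImplicit false

namespace Pool.Agent.Helper6.LW.MOR

open MvPolynomial Pool.Agent.H734R3.GGL Pool.Agent.Helper23.LW

/-- evaluation of a polynomial at a curve -/
lemma eval_curve {M : ℕ} (c : Fin M → Polynomial ℂ) (F : MvPolynomial (Fin M) ℂ) (τ : ℂ) :
    (aeval c F : Polynomial ℂ).eval τ = eval (fun i => (c i).eval τ) F := by
  have h := MvPolynomial.map_aeval c (Polynomial.evalRingHom τ) F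
  rw [Polynomial.coe_evalRingHom] at h
  rw [h]
  have h2 : (Polynomial.evalRingHom τ).comp (algebraMap ℂ (Polynomial ℂ)) = RingHom.id ℂ := by
    ext x
    simp
  rw [h2]
  rfl

/-- the reparametrization -/
noncomputable def rp (γ : ℂ) : Polynomial ℂ :=
  if γ = 0 then Polynomial.X - 1 else Polynomial.C γ⁻¹ * (Polynomial.X - 1)

lemma rp_one (γ : ℂ) : (rp γ).eval 1 = 0 := by
  unfold rp
  split_ifs <;> simp

lemma rp_ne (γ t : ℂ) (ht : t ≠ 0) : 1 + γ * (rp γ).eval t ≠ 0 := by
  unfold rp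
  split_ifs with h
  · simp [h]
  · simp only [Polynomial.eval_mul, Polynomial.eval_C, Polynomial.eval_sub, Polynomial.eval_X,
      Polynomial.eval_one]
    rw [← mul_assoc, mul_inv_cancel₀ h, one_mul]
    simpa using ht

lemma rp_inj (γ : ℂ) : Function.Injective fun t => (rp γ).eval t := by
  intro t t' h
  unfold rp at h
  split_ifs at h with hg
  · simpa using h
  · simp only [Polynomial.eval_mul, Polynomial.eval_C, Polynomial.eval_sub, Polynomial.eval_X,
      Polynomial.eval_one] at h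
    have := mul_left_cancel₀ (inv_ne_zero hg) h
    exact sub_left_injective this

theorem main (hCRV : St_CRV) (hNCT : St_NCT) : St_MOR := by
  intro N X x hx
  obtain ⟨M, s, w, H, D, G, b, Φ, δ, hΦ, P, hP, hw, hH, hG, hb, hΦh, hsum, hPi, hX, hfin, hPx⟩ := hx
  obtain ⟨c, γ, hc0, hcn, hcH, hcG⟩ := hCRV M s w H D G b hH hG (by omega) hsum P hP.1 hP.2
  have hcone : ∀ t : ℂ, t ≠ 0 → (fun i => (c i).eval ((rp γ).eval t)) ∈ Cone H G := by
    intro t ht
    refine ⟨fun j => ?_, ?_⟩
    · rw [← eval_curve, hcH j, Polynomial.eval_zero]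
    · rw [← eval_curve, hcG]
      simp only [Polynomial.eval_mul, Polynomial.eval_C, Polynomial.eval_add, Polynomial.eval_one,
        Polynomial.eval_X]
      exact mul_ne_zero hP.2 (rp_ne γ t ht)
  have hqe : ∀ (t : ℂ), (fun l => (((aeval c (Φ l) : Polynomial ℂ)).comp (rp γ)).eval t) =
      fun l => eval (fun i => (c i).eval ((rp γ).eval t)) (Φ l) := by
    intro t
    funext l
    rw [Polynomial.eval_comp, eval_curve]
  have hq : ∀ t : ℂ, t ≠ 0 →
      (fun l => (((aeval c (Φ l) : Polynomial ℂ)).comp (rp γ)).eval t) ≠ 0 := by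
    intro t ht
    rw [hqe]
    exact hΦ _ (hcone t ht)
  have hmk : ∀ (t : ℂ) (ht : t ≠ 0), Projectivization.mk ℂ
      (fun l => (((aeval c (Φ l) : Polynomial ℂ)).comp (rp γ)).eval t) (hq t ht) =
      Projectivization.mk ℂ (fun l => eval (fun i => (c i).eval ((rp γ).eval t)) (Φ l))
        (hΦ _ (hcone t ht)) := by
    intro t ht
    congr 1
    exact hqe t
  refine ⟨fun l => ((aeval c (Φ l) : Polynomial ℂ)).comp (rp γ), hq, ?_, ?_, ?_⟩
  · intro t ht
    rw [hmk t ht]
    exact hX _ (hcone t ht)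
  · by_contra hcon
    push Not at hcon
    obtain ⟨S, hS⟩ := hfin (Projectivization.mk ℂ
      (fun l => (((aeval c (Φ l) : Polynomial ℂ)).comp (rp γ)).eval 1) (hq 1 one_ne_zero))
    have h1 : ∀ t : ℂ, t ≠ 0 → ∃ R ∈ S, ∃ l : ℂ, l ≠ 0 ∧
        (fun i => (c i).eval ((rp γ).eval t)) = wsc w l R := by
      intro t ht
      refine hS _ (hcone t ht) ?_
      rw [← hmk t ht]
      exact hcon t 1 ht one_ne_zero
    have h2 : (⋃ R ∈ S, {τ : ℂ | ∃ l : ℂ, l ≠ 0 ∧ (fun i => (c i).eval τ) = wsc w l R}).Finite := by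
      refine Set.Finite.biUnion (Finset.finite_toSet S) fun R _ => ?_
      refine hNCT M w G b hw hG hb c γ (eval P G) hP.2 hcG ?_ ?_ R
      · obtain ⟨i, hi, hib⟩ := hPi
        exact ⟨i, by rwa [hc0 i], hib⟩
      · obtain ⟨i, hi⟩ := hcn
        exact ⟨i, by rwa [hc0 i]⟩
    have h3 : ((fun t => (rp γ).eval t) '' {t : ℂ | t ≠ 0}).Finite := by
      refine h2.subset ?_
      rintro _ ⟨t, ht, rfl⟩
      obtain ⟨R, hR, l, hl, hl'⟩ := h1 t ht
      simp only [Set.mem_iUnion]
      exact ⟨R, hR, l, hl, hl'⟩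
    have h4 : ({t : ℂ | t ≠ 0}).Finite := Set.Finite.of_finite_image h3 (rp_inj γ).injOn
    have h5 : (Set.univ : Set ℂ).Finite := by
      have : (Set.univ : Set ℂ) = {t : ℂ | t ≠ 0} ∪ {0} := by
        ext t
        by_cases ht : t = 0 <;> simp [ht]
      rw [this]
      exact h4.union (Set.finite_singleton 0)
    exact Set.infinite_univ h5
  · rw [hmk 1 one_ne_zero, ← hPx]
    congr 1
    funext l
    congr 2
    funext i
    rw [rp_one, hc0]

end Pool.Agent.Helper6.LW.MOR
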